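import Pool.Agent.H.MP_5076ba_lc.A

set_option autoImplicit false

namespace Pool.Agent.Results.MP_5076ba_lc.No

open FirstOrder FirstOrder.Language Cardinal Set Pool.Agent.Lib.helper21.RN
open Pool.Agent.H.MP_5076ba_lc

/-- Model theoretic algebraic closure of `A` in `N`. -/
def acl (L : FirstOrder.Language.{0, 0}) {N : Type} [L.Structure N] (A : Set N) : Set N :=
  {x | ∃ (n : ℕ) (φ : L.Formula (Fin n ⊕ Unit)) (a : Fin n → N), (∀ i, a i ∈ A) ∧
    φ.Realize (Sum.elim a fun _ => x) ∧ {y | φ.Realize (Sum.elim a fun _ => y)}.Finite}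

variable {L : FirstOrder.Language.{0, 0}}

/-- Every model realises only countably many 1-types over any countable set of parameters. -/
def OmegaStable (T : L.Theory) : Prop :=
  ∀ (N : Theory.ModelType.{0, 0, 0} T) (a : ℕ → N), (range fun x : N =>
    {p : Σ n, L.Formula (Fin n ⊕ Unit) | p.2.Realize (Sum.elim (fun i => a i) fun _ => x)}).Countable

/-- `θ` isolates a complete nonalgebraic type over the empty set and is strongly minimal. -/
def SMType (T : L.Theory) (θ : L.Formula Unit) : Prop :=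
  ∀ N : Theory.ModelType.{0, 0, 0} T, {x : N | θ.Realize fun _ => x}.Infinite ∧
    (∀ x y : N, θ.Realize (fun _ => x) → θ.Realize (fun _ => y) →
      ∀ φ : L.Formula Unit, φ.Realize (fun _ => x) → φ.Realize fun _ => y) ∧
    ∀ (n : ℕ) (φ : L.Formula (Fin n ⊕ Unit)) (a : Fin n → N),
      {x : N | θ.Realize (fun _ => x) ∧ φ.Realize (Sum.elim a fun _ => x)}.Finite ∨
      {x : N | θ.Realize (fun _ => x) ∧ ¬φ.Realize (Sum.elim a fun _ => x)}.Finite

/-- The bound `n` fails in `N` for the type isolated by `θ`. -/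
def Fails (L : FirstOrder.Language.{0, 0}) (N : Type) [L.Structure N] (θ : L.Formula Unit)
    (n : ℕ) : Prop :=
  ∃ (c : N) (b A : Set N), θ.Realize (fun _ => c) ∧ b.Finite ∧ acl L A = A ∧ c ∈ acl L (A ∪ b) ∧
    ∀ A' : Finset N, ↑A' ⊆ A → A'.card ≤ n → c ∉ acl L (A' ∪ b)

theorem acl_mono {N : Type} [L.Structure N] {A B : Set N} (h : A ⊆ B) : acl L A ⊆ acl L B :=
  fun _ ⟨n, φ, a, h1, h2⟩ => ⟨n, φ, a, fun i => h (h1 i), h2⟩

theorem mem_acl {N α : Type} [L.Structure N] [Finite α] {A : Set N} (φ : L.Formula (α ⊕ Unit))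
    (a : α → N) (h : ∀ i, a i ∈ A) (x : N) (H : ∀ y, φ.Realize (Sum.elim a fun _ => y) ↔ y = x) :
    x ∈ acl L A := by
  obtain ⟨n, ⟨e⟩⟩ := Finite.exists_equiv_fin α
  refine ⟨n, φ.relabel (Sum.map e id), a ∘ e.symm, fun i => h _, ?_, ?_⟩ <;>
    simp [Sum.elim_comp_map, Function.comp_assoc, H]

theorem acl_image {M N : Type} [L.Structure M] [L.Structure N] (e : M ↪ₑ[L] N) (B : Set M) :
    acl L (e '' B) = e '' acl L B := by
  refine subset_antisymm ?_ ?_
  · rintro x ⟨n, φ, a, h1, h2, h3⟩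
    choose b b1 b2 using h1
    obtain rfl : e ∘ b = a := funext b2
    have := h3.preimage e.injective.injOn
    simp only [preimage_setOf_eq, tr_one] at this
    obtain ⟨y, hy, rfl⟩ := tr_fin e φ b this (fun _ => id) x h2
    exact ⟨y, ⟨n, φ, b, b1, hy, this⟩, rfl⟩
  · rintro _ ⟨x, ⟨n, φ, a, h1, h2, h3⟩, rfl⟩
    exact ⟨n, φ, e ∘ a, fun i => mem_image_of_mem _ (h1 i), (tr_one e φ a x).2 h2,
      (h3.image e).subset (tr_fin e φ a h3 fun _ => id)⟩

instance : Countable (CL G).Symbols := olig.countable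

theorem not_acl {B : Set X} {x : X} (y : ℕ → V) (hy : Function.Injective y) (hB : o ∈ B)
    (h : ∀ n, ∃ g : V ≃ₗ[ZMod 2] V, (∀ a ∈ B, ∀ b ∈ B, a.1 = b.1 → g (a.2 - b.2) = a.2 - b.2) ∧
      ∀ a ∈ B, x.1 = a.1 → y n - a.2 = g (x.2 - a.2)) : x ∉ acl (CL G) B := by
  rintro ⟨n, φ, a, h1, h2, h3⟩
  refine infinite_of_injective_forall_mem (f := fun n => (x.1, y n))
    (fun _ _ e => hy (congrArg Prod.snd e)) (fun m => ?_) h3
  obtain ⟨g, g1, g2⟩ := h m
  have k : ∀ i, Sum.elim a (fun _ : Unit => o) i ∈ B := by simp [h1, hB]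
  simpa [Sum.elim_comp_map, h2] using one _ (.inr ()) rfl g (fun i j => g1 _ (k i) _ (k j)) x
    (x.1, y m) (fun _ => .rfl) (fun i => g2 _ (k i)) (φ.relabel (Sum.map .inl id))

theorem stable : OmegaStable ((CL G).completeTheory X) := fun N a => by
  classical
  obtain ⟨e, b, hb⟩ := down olig.cat N.is_model a
  obtain ⟨E, hE⟩ := form (G := G) (S := {z : Unit ⊕ Unit → X | (z (.inr ())).1 = (z (.inl ())).1})
    fun g ⟨_, _, h⟩ z hz => (h _ _).1.1 hz
  let d : N → X ⊕ Option X := fun x => if h : x ∈ range e then .inl h.choose else .inr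
    (if h : ∃ z, E.Realize (Sum.elim (e ∘ fun _ => z) fun _ => x) then some h.choose else none)
  have key : ∀ x y, d x = d y → ∀ (n : ℕ) (φ : (CL G).Formula (Fin n ⊕ Unit)) (c : Fin n → X),
      φ.Realize (Sum.elim (e ∘ c) fun _ => x) → φ.Realize (Sum.elim (e ∘ c) fun _ => y) := by
    intro x y h n φ c hx
    by_cases x1 : x ∈ range e <;> by_cases y1 : y ∈ range e <;>
      simp only [d, x1, y1, dite_true, dite_false, Sum.inl.injEq, Sum.inr.injEq, reduceCtorEq] at h
    · rwa [← y1.choose_spec, ← h, x1.choose_spec]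
    by_cases x2 : ∃ z, E.Realize (Sum.elim (e ∘ fun _ => z) fun _ => x) <;>
      by_cases y2 : ∃ z, E.Realize (Sum.elim (e ∘ fun _ => z) fun _ => y) <;>
      simp only [x2, y2, dite_true, dite_false, Option.some.injEq, reduceCtorEq] at h
    · have x3 := x2.choose_spec
      have y3 := h ▸ y2.choose_spec
      generalize x2.choose = z at x3 y3
      obtain ⟨C, c1, c2⟩ := near c z
      have k : ∀ (ψ : (CL G).Formula (Fin n ⊕ Unit)) (x : N), x ∉ range e →
          E.Realize (Sum.elim (e ∘ fun _ => z) fun _ => x) →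
          ψ.Realize (Sum.elim (e ∘ c) fun _ => x) →
          ∃ u ∉ C, u.1 = z.1 ∧ ψ.Realize (Sum.elim c fun _ => u) := fun ψ x a1 a2 a3 => by
        by_contra! l
        refine a1 (image_subset_range _ _ (tr_fin e (α := Fin n ⊕ Unit) (ψ.relabel
          (Sum.map .inl id) ⊓ E.relabel (Sum.map .inr id)) (Sum.elim c fun _ => z) c1
          (fun u hu => by_contra fun t => ?_) x ?_))
        · simp only [Formula.realize_inf, Formula.realize_relabel, Sum.elim_comp_map, hE] at hu
          exact l u t hu.2 hu.1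
        · simp only [Formula.realize_inf, Formula.realize_relabel, Sum.elim_comp_map]
          exact ⟨a3, a2⟩
      obtain ⟨u, u1, u2, u3⟩ := k φ x x1 x3 hx
      by_contra l
      obtain ⟨u', v1, v2, v3⟩ := k (∼φ) y y1 y3 (Formula.realize_not.2 l)
      exact Formula.realize_not.1 v3 ((c2 u u1 u' v1 u2 v2 φ).1 u3)
    · have := tr_all e (α := Option (Fin n)) (β := Bool) (Formula.iInf (fun p : Option (Fin n) × Bool =>
          ∼(E.relabel (Sum.map (fun _ => p.1) fun _ => p.2))) ⟹
        φ.relabel (Sum.map some fun _ => true) ⟹ φ.relabel (Sum.map some fun _ => false))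
        (fun i => i.elim o c) (fun z => by
          simp only [Formula.realize_imp, Formula.realize_iInf, Formula.realize_not,
            Formula.realize_relabel, Sum.elim_comp_map, hE]
          exact fun l => (faraway c (z true) (z false) (fun i => l (some i, true))
            (fun i => l (some i, false)) (l (none, true)) (l (none, false)) φ).1)
        fun i => cond i x y
      simp only [Formula.realize_imp, Formula.realize_iInf, Formula.realize_not,
        Formula.realize_relabel, Sum.elim_comp_map] at this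
      refine this (fun p l => ?_) hx
      rcases p with ⟨p, _ | _⟩
      exacts [y2 ⟨_, l⟩, x2 ⟨_, l⟩]
  obtain rfl : e ∘ b = a := funext hb
  obtain ⟨f, hf⟩ := (Function.factorsThrough_iff (f := d) fun x : N =>
    {p : Σ n, (CL G).Formula (Fin n ⊕ Unit) | p.2.Realize (Sum.elim (fun i => (e ∘ b) i)
      fun _ => x)}).1 fun x y h => Set.ext fun p =>
        ⟨key x y h p.1 p.2 fun i => b i, key y x h.symm p.1 p.2 fun i => b i⟩
  exact hf ▸ (countable_range f).mono (range_comp_subset_range _ _)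

theorem fails {θ : (CL G).Formula Unit} (hθ : ∀ x : X, θ.Realize (fun _ => x) ↔ x.1 = 0 ∧ x ≠ o)
    (N : Theory.ModelType.{0, 0, 0} ((CL G).completeTheory X)) (n : ℕ) : Fails (CL G) N θ n := by
  classical
  obtain ⟨e, -⟩ := down olig.cat N.is_model (α := Empty) Empty.elim
  let a : Fin (n + 1) → X := fun i => (i + 1, 0)
  let b : Fin (n + 1) → X := fun i => (i + 1, Finsupp.single i 1)
  let c : X := (0, ∑ i : Fin (n + 1), Finsupp.single i 1)
  have hc : ∀ i : Fin (n + 1), c.2 i = 1 := fun i => by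
    simp [c, Finsupp.single_apply, Fin.val_inj]
  refine ⟨e c, e '' range b, e '' insert o (range a), (e.map_formula θ fun _ => c).2 ((hθ c).2
    ⟨rfl, fun h => by simpa [h, o] using hc 0⟩), (finite_range b).image _, ?_, ?_,
    fun A h1 h2 h3 => ?_⟩
  · rw [acl_image]
    refine congrArg _ (subset_antisymm (fun x hx => by_contra fun h => ?_) fun x hx =>
      mem_acl (α := Unit) ((Term.var (.inr ())).equal (.var (.inl ()))) (fun _ => x)
        (fun _ => hx) x (by simp))
    have z : ∀ u ∈ insert o (range a), u.2 = 0 := by rintro _ (rfl | ⟨i, rfl⟩) <;> rfl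
    refine not_acl (fun m => Finsupp.single m 1) (Finsupp.single_left_injective one_ne_zero)
      (mem_insert _ _) (fun m => ?_) hx
    by_cases k : x.2 = 0
    · exact ⟨.refl _ _, fun _ _ _ _ _ => rfl, fun u hu l =>
        absurd ((Prod.ext l (k.trans (z u hu).symm) : x = u) ▸ hu) h⟩
    · obtain ⟨g, -, g2⟩ := fix ⊥ (u := x.2) (u' := Finsupp.single m 1) k (by simp)
      exact ⟨g, fun u hu v hv _ => by simp [z u hu, z v hv], fun u hu _ => by simp [z u hu, g2]⟩
  · rw [← image_union, acl_image]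
    obtain ⟨φ, hφ⟩ := form (G := G) (S := {z : (Fin (n + 1) ⊕ Fin (n + 1)) ⊕ Unit → X |
      (∀ i, (z (.inl (.inr i))).1 = (z (.inl (.inl i))).1) ∧ (z (.inr ())).1 = 0 ∧
        (z (.inr ())).2 = ∑ i, ((z (.inl (.inr i))).2 - (z (.inl (.inl i))).2)}) (by
      rintro f ⟨f0, g, h⟩ z ⟨z1, z2, z3⟩
      have := h (z (.inr ())) o
      rw [f0] at this
      refine ⟨fun i => (h _ _).1.1 (z1 i), this.1.1 z2, ?_⟩
      simpa [o, z3, (h _ _).2 (z1 _), -map_sub, -Finset.sum_sub_distrib] using this.2 z2)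
    exact mem_image_of_mem _ (mem_acl φ (Sum.elim a b) (by simp) c fun y => by
      simp [hφ, a, b, c, Prod.ext_iff])
  · obtain ⟨i, hi⟩ : ∃ i, e (a i) ∉ A := by
      by_contra! l
      have := Finset.card_le_card_of_injOn (s := Finset.univ) (fun i => e (a i)) (fun i _ => l i)
        fun i _ j _ h => by simpa [a, Fin.val_inj] using e.injective h
      simp at this; omega
    let B : Set X := {u | u.1 ≠ i + 1 ∧ u.2 i = 0 ∨ u = b i}
    have s : (A : Set N) ∪ e '' range b ⊆ e '' B := by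
      rintro _ (h | ⟨_, ⟨j, rfl⟩, rfl⟩)
      · obtain ⟨_, rfl | ⟨j, rfl⟩, rfl⟩ := h1 h
        · exact ⟨_, .inl ⟨by simp [o], rfl⟩, rfl⟩
        · exact ⟨_, .inl ⟨fun l => hi (by rwa [← Fin.val_inj.1 (Nat.succ_injective l)]), rfl⟩, rfl⟩
      · refine ⟨_, ?_, rfl⟩
        rcases eq_or_ne j i with rfl | l
        exacts [.inr rfl, .inl (by simp [b, Fin.val_inj, l, l.symm])]
    have := acl_mono s h3
    rw [acl_image, e.injective.mem_set_image] at this
    refine not_acl (fun m => c.2 + Finsupp.single (m + (i + 1)) 1) (fun _ _ l =>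
      Nat.add_right_cancel (Finsupp.single_left_injective one_ne_zero (add_left_cancel l)))
      (.inl ⟨by simp [o], rfl⟩) (fun m => ?_) this
    obtain ⟨g, g1, g2⟩ := fix (LinearMap.ker (Finsupp.lapply (i : ℕ))) (u := c.2)
      (u' := c.2 + Finsupp.single (m + (i + 1)) 1) (by simp [hc])
      (by simp [hc, ← add_assoc, show ¬m + i + 1 = i by omega])
    refine ⟨g, ?_, ?_⟩
    · rintro u (hu | rfl) v (hv | rfl) l
      exacts [g1 _ (by simp [hu.2, hv.2]), absurd l hu.1, absurd l.symm hv.1, by simp]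
    · rintro u (hu | rfl) l
      exacts [by rw [map_sub, g2, g1 _ (by simp [hu.2])], by simp [b, c] at l]

theorem result : ∃ (L : FirstOrder.Language.{0, 0}) (_ : Countable L.Symbols) (T : L.Theory)
    (θ : L.Formula Unit), T.IsComplete ∧ Categorical (ℵ₀ : Cardinal.{0}) T ∧ OmegaStable T ∧
      SMType T θ ∧ ∀ (N : Theory.ModelType.{0, 0, 0} T) (n : ℕ), Fails L N θ n := by
  obtain ⟨θ, hθ⟩ := form (G := G) (S := {z : Unit → X | (z ()).1 = 0 ∧ z () ≠ o}) (by
    rintro f ⟨f0, g, h⟩ z ⟨z1, z2⟩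
    exact ⟨((h _ o).1.1 z1).trans (congrArg _ f0), f0 ▸ f.injective.ne z2⟩)
  refine ⟨CL G, inferInstance, _, θ, completeTheory.isComplete _ X, olig.cat, stable,
    fun N => ⟨?_, fun x y hx hy φ h => ?_, fun n φ a => ?_⟩, fails fun x => hθ _⟩
  · obtain ⟨e, -⟩ := down olig.cat N.is_model (α := Empty) Empty.elim
    exact infinite_of_injective_forall_mem (f := fun m : ℕ => e (0, Finsupp.single m 1))
      (fun _ _ l => Finsupp.single_left_injective one_ne_zero (congrArg Prod.snd (e.injective l)))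
      fun m => (e.map_formula θ fun _ => _).2 ((hθ _).2 ⟨rfl, by simp [o]⟩)
  · obtain ⟨e, z, hz⟩ := down olig.cat N.is_model fun i => cond i x y
    obtain rfl : e (z true) = x := hz true
    obtain rfl : e (z false) = y := hz false
    obtain ⟨x1, x2⟩ := (hθ _).1 ((e.map_formula θ fun _ => _).1 hx)
    obtain ⟨y1, y2⟩ := (hθ _).1 ((e.map_formula θ fun _ => _).1 hy)
    obtain ⟨g, -, g2⟩ := fix ⊥ (u := (z true).2) (u' := (z false).2)
      (fun l => x2 (Prod.ext x1 l)) fun l => y2 (Prod.ext y1 l)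
    refine (e.map_formula φ fun _ => _).2 ?_
    simpa [(e.map_formula φ fun _ => _).1 h, Function.comp_def] using
      one (fun _ : Unit => o) () rfl g (by simp) (z true) (z false) (by simp [x1, y1])
        (by simp [o, g2]) (φ.relabel .inr)
  · obtain ⟨e, c, hc⟩ := down olig.cat N.is_model a
    obtain rfl : e ∘ c = a := funext hc
    obtain ⟨C, c1, c2⟩ := near c o
    have k : ∀ ψ : (CL G).Formula (Fin n ⊕ Unit), (∀ u ∉ C, u.1 = 0 →
        ¬ψ.Realize (Sum.elim c fun _ => u)) → {x : N | θ.Realize (fun _ => x) ∧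
          ψ.Realize (Sum.elim (e ∘ c) fun _ => x)}.Finite := fun ψ h =>
      (c1.image e).subset fun x hx => tr_fin e (θ.relabel .inr ⊓ ψ) c c1
        (fun u hu => by_contra fun l => by
          simp only [Formula.realize_inf, Formula.realize_relabel, hθ] at hu
          exact h u l hu.1.1 hu.2) x (by simpa [Function.comp_def] using hx)
    by_cases l : ∃ u ∉ C, u.1 = 0 ∧ φ.Realize (Sum.elim c fun _ => u)
    · obtain ⟨u, u1, u2, u3⟩ := l
      have := k (∼φ) fun v v1 v2 l => Formula.realize_not.1 l ((c2 u u1 v v1 u2 v2 φ).1 u3)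
      exact .inr (by simpa using this)
    · exact .inl (k φ fun u u1 u2 u3 => l ⟨u, u1, u2, u3⟩)

end Pool.Agent.Results.MP_5076ba_lc.No
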